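import Pool.Agent.Helper4.P11.StD
import Pool.Agent.Helper84.P11.D1

/-!
# Project P11 (levels `11^n`), module Tri: triangular system of symbols modulo 11

Model: `Pool/Agent/Helper44/T7/M_Tri.lean`.
-/

set_option autoImplicit false

namespace Pool.Agent.Helper63.P11

open Pool.Agent.Helper4.P11 Pool.Agent.Helper84.P11
open Pool.Agent.Helper28.WK (SymP)
open Pool.Agent.Helper2.P11 (pf11 Df11 Rel11 S11Ex)

/-- The value of the functional `c'` on the solution with index `c` if the exponents of `Y` agree. -/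
private def wv (c c' : ℕ) : ZMod 11 :=
  ∑ f : Fin 3, tpM c f * ((qOM c' f.val (bM c') : ℤ) : ZMod 11)

private theorem chk : ∀ (c c' : Fin 10),
    (aM c'.val + bM c.val) % 10 = (aM c.val + bM c'.val) % 10 → c' ≠ c → wv c.val c'.val = 0 := by
  decide

private theorem chd : ∀ c : Fin 10, wv c.val c.val ≠ 0 := by decide

private theorem che : ∀ c : Fin 10, aM c.val ≤ eM c.val := by decide

/-- The value only depends on the leading form. -/
private theorem lead_Tri {r s : ℕ} (O : Module.End (ZMod 11) (Fn11 (11 ^ r) (11 ^ s)))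
    (k : ℤ) (hO : Lw O k) (F L : Fn11 (11 ^ r) (11 ^ s)) (h : F - L ∈ Wd11 (k - 1)) :
    O F = O L := by
  have h1 := hO _ _ h
  have h2 : k - 1 - k = -1 := by ring
  rw [h2] at h1
  have h3 := (low0 r s).2.2.2.2.2.2.2.2.2.2.2.2.2 _ h1
  rw [map_sub] at h3
  exact sub_eq_zero.1 h3

/-- TRI. -/
theorem hTri (hd : TLed) (hx : S11Ex) (hi : TItr) (hf : TTrf) : TTri := by
  intro r s c i j hc hr hs
  obtain ⟨F, hRel, hF⟩ := hd r s c i j hc hr hs
  obtain ⟨G, hG, hGF⟩ := hx (ZMod 11) inferInstance r s F hRel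
  have hae := che ⟨c, by omega⟩
  simp only at hae
  -- the extra term
  have hsix : c = 6 → eM c = aM c + 1 ∧ bM c = 1 := by
    intro h
    subst h
    exact ⟨by decide, by decide⟩
  obtain ⟨A, hA⟩ : ∃ A, A = aM c + i + 11 * j := ⟨_, rfl⟩
  obtain ⟨B, hB⟩ : ∃ B, B = bM c + i + j := ⟨_, rfl⟩
  have hdg : dgM c i j = A + B := by
    rw [hA, hB]
    unfold dgM
    ring
  have hrh : rhM c i j = B := by rw [hB]; rfl
  have hld : ∀ f : Fin 3, (ldM c i j f : Fn11 (11 ^ r) (11 ^ s)) = tpM c f • bb11 A B +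
      (if c = 6 ∧ f = 0 then (3 : ZMod 11) • bb11 (A + 1) (B - 1) else 0) := by
    intro f
    unfold ldM
    rw [← hA, ← hB]
  have hr6 : c = 6 → A + 1 < 11 ^ r ∧ 1 ≤ B := by
    intro h
    obtain ⟨h1, h2⟩ := hsix h
    rw [h1] at hr
    rw [h2] at hB
    constructor <;> omega
  have hrA : A < 11 ^ r := by omega
  have hsB : B < 11 ^ s := by rw [hB]; exact hs
  have hbb : (bb11 A B : Fn11 (11 ^ r) (11 ^ s)) ∈ Wd11 ((A : ℤ) + B) := (bb r s).1 A B hrA hsB
  have hbb6 : c = 6 → (bb11 (A + 1) (B - 1) : Fn11 (11 ^ r) (11 ^ s)) ∈ Wd11 ((A : ℤ) + B) := by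
    intro h
    obtain ⟨h1, h2⟩ := hr6 h
    have h3 := (bb r s).1 (A + 1) (B - 1) h1 (by omega)
    have h4 : (((A + 1 : ℕ) : ℤ) + ((B - 1 : ℕ) : ℤ)) = (A : ℤ) + B := by omega
    rw [h4] at h3
    exact h3
  have hdz : ((A + B : ℕ) : ℤ) = (A : ℤ) + B := by push_cast; ring
  have hldW : ∀ f : Fin 3, (ldM c i j f : Fn11 (11 ^ r) (11 ^ s)) ∈ Wd11 ((A : ℤ) + B) := by
    intro f
    rw [hld f]
    refine Submodule.add_mem _ (Submodule.smul_mem _ _ hbb) ?_
    split_ifs with h
    · exact Submodule.smul_mem _ _ (hbb6 h.1)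
    · exact Submodule.zero_mem _
  have hF' : ∀ f : Fin 3, F f - ldM c i j f ∈ Wd11 ((A : ℤ) + B - 1) := by
    intro f
    have h := hF f
    rw [hdg, hdz] at h
    exact h
  have hFd : ∀ f : Fin 3, F f ∈ Wd11 ((A : ℤ) + B) := by
    intro f
    have h1 : F f = (F f - ldM c i j f) + ldM c i j f := by rw [sub_add_cancel]
    rw [h1]
    exact Submodule.add_mem _ ((low0 r s).2.2.2.2.1 _ _ (by omega) (hF' f)) (hldW f)
  have hI := hi r s G (A + B) hG (fun f => by rw [hGF f, hdz]; exact hFd f)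
  have hval : ∀ c' i' j' : ℕ, c' ≤ 9 → dgM c' i' j' = A + B →
      evM (11 ^ r) G c' i' j' = ∑ f : Fin 3, (tpM c f *
        ((MoM c' f.val * QoM ^ i' * LoM ^ j' : Module.End (ZMod 11) (Fn11 (11 ^ r) (11 ^ s)))
          (bb11 A B)) 0 0 + (if c = 6 ∧ f = 0 then (3 : ZMod 11) *
        ((MoM c' f.val * QoM ^ i' * LoM ^ j' : Module.End (ZMod 11) (Fn11 (11 ^ r) (11 ^ s)))
          (bb11 (A + 1) (B - 1))) 0 0 else 0)) := by
    intro c' i' j' hc' h
    rw [(hI c' i' j' hc').2 h]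
    refine Finset.sum_congr rfl fun f _ => ?_
    rw [hGF f]
    have h1 := (hf r s).1 c' i' j' f hc'
    rw [h, hdz] at h1
    rw [lead_Tri _ _ h1 (F f) (ldM c i j f) (hF' f), hld f, map_add, map_smul]
    split_ifs with h6
    · rw [map_smul]
      rfl
    · rw [map_zero]
      rfl
  -- the extra term is zero if `B ≤ rhM κ'`
  have hX : ∀ c' i' j' : ℕ, c' ≤ 9 → dgM c' i' j' = A + B → B ≤ rhM c' i' j' → ∀ f : Fin 3,
      (if c = 6 ∧ f = 0 then (3 : ZMod 11) *
        ((MoM c' f.val * QoM ^ i' * LoM ^ j' : Module.End (ZMod 11) (Fn11 (11 ^ r) (11 ^ s)))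
          (bb11 (A + 1) (B - 1))) 0 0 else 0) = 0 := by
    intro c' i' j' hc' h hle f
    split_ifs with h6
    · obtain ⟨h1, h2⟩ := hr6 h6.1
      rw [((hf r s).2 c' i' j' (A + 1) (B - 1) f hc' h1 (by omega) (by omega)).1 (by omega), mul_zero]
    · rfl
  refine ⟨G, hG, ?_, ?_⟩
  · have h9 := chd ⟨c, by omega⟩
    have h8 : evM (11 ^ r) G c i j = wv c c := by
      rw [hval c i j hc hdg]
      unfold wv
      refine Finset.sum_congr rfl fun f _ => ?_
      rw [hX c i j hc hdg hrh.ge f, add_zero,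
        ((hf r s).2 c i j A B f hc hrA hsB hdg.symm).2 hrh.symm]
    rw [h8]
    exact h9
  · intro c' i' j' hc' hne
    rw [hdg, hrh]
    rcases lt_trichotomy (dgM c' i' j') (A + B) with h | h | h
    · exact Or.inl h
    · refine Or.inr ⟨h, ?_⟩
      by_contra hcon
      apply hne
      push Not at hcon
      obtain ⟨hcon1, hcon2⟩ := hcon
      rw [hval c' i' j' hc' h]
      rcases hcon1.lt_or_eq with hlt | heq
      · refine Finset.sum_eq_zero fun f _ => ?_
        rw [hX c' i' j' hc' h hcon1 f, add_zero,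
          ((hf r s).2 c' i' j' A B f hc' hrA hsB h.symm).1 hlt, mul_zero]
      · have hcc : c' ≠ c := hcon2 heq.symm
        have hmod : (aM c' + bM c) % 10 = (aM c + bM c') % 10 := by
          have h1 : aM c' + bM c' + 2 * i' + 12 * j' = A + B := h
          have h2 : B = bM c' + i' + j' := heq
          omega
        have h9 := chk ⟨c, by omega⟩ ⟨c', by omega⟩ hmod (fun h0 => hcc (Fin.mk.inj_iff.1 h0))
        have h8 : ∑ f : Fin 3, (tpM c f *
            ((MoM c' f.val * QoM ^ i' * LoM ^ j' : Module.End (ZMod 11) (Fn11 (11 ^ r) (11 ^ s)))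
            (bb11 A B)) 0 0 + (if c = 6 ∧ f = 0 then (3 : ZMod 11) *
            ((MoM c' f.val * QoM ^ i' * LoM ^ j' : Module.End (ZMod 11) (Fn11 (11 ^ r) (11 ^ s)))
            (bb11 (A + 1) (B - 1))) 0 0 else 0)) = wv c c' := by
          unfold wv
          refine Finset.sum_congr rfl fun f _ => ?_
          rw [hX c' i' j' hc' h hcon1 f, add_zero,
            ((hf r s).2 c' i' j' A B f hc' hrA hsB h.symm).2 heq]
        rw [h8]
        exact h9
    · exact absurd ((hI c' i' j' hc').1 h) hne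

end Pool.Agent.Helper63.P11
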